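import Pool.Agent.N64.AF.SA3
import Pool.Agent.N64.AF.SBb
import Pool.Agent.N64.AF.SP1
import Pool.Agent.N64.AF.SP2

/-!
# C: Schur's bound
-/

set_option autoImplicit false

open CategoryTheory Limits MonoidalCategory Module
open Pool.Agent.Y112.SR Pool.Agent.Y112.KD
open Pool.Agent.Y116.MT (tr)

namespace Pool.Agent.N64.AF

universe v u w t

namespace SchurAux

/-- A numerical lemma. -/
lemma le_of_pow_le {F E B w : ℕ} (h : ∀ j : ℕ, F ^ 2 ^ j ≤ E ^ (2 ^ j - 1) * (B * w ^ 2 ^ j)) :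
    F ≤ w * E := by
  by_contra hcon
  push Not at hcon
  rcases Nat.eq_zero_or_pos E with hE | hE
  · subst hE
    have := h 1
    simp at this
    omega
  rcases Nat.eq_zero_or_pos w with hw | hw
  · subst hw
    have := h 0
    simp at this
    omega
  -- `F ≥ w E + 1`
  have hpos : (0 : ℝ) < w * E := by positivity
  have hR : 1 < (F : ℝ) / (w * E) := by
    rw [lt_div_iff₀ hpos, one_mul]
    exact_mod_cast hcon
  have h1 : ∀ j : ℕ, ((F : ℝ) / (w * E)) ^ 2 ^ j ≤ B := by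
    intro j
    rw [div_pow, div_le_iff₀ (by positivity)]
    have h2 : ((F ^ 2 ^ j : ℕ) : ℝ) ≤ ((E ^ (2 ^ j - 1) * (B * w ^ 2 ^ j) : ℕ) : ℝ) := by
      exact_mod_cast h j
    push_cast at h2
    refine h2.trans ?_
    rw [mul_pow]
    have h3 : (E : ℝ) ^ (2 ^ j - 1) ≤ (E : ℝ) ^ 2 ^ j :=
      pow_le_pow_right₀ (by exact_mod_cast hE) (Nat.sub_le _ _)
    calc (E : ℝ) ^ (2 ^ j - 1) * (B * w ^ 2 ^ j) ≤ (E : ℝ) ^ 2 ^ j * (B * w ^ 2 ^ j) :=
          mul_le_mul_of_nonneg_right h3 (by positivity)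
      _ = B * (w ^ 2 ^ j * E ^ 2 ^ j) := by ring
  obtain ⟨n, hn⟩ := pow_unbounded_of_one_lt (B : ℝ) hR
  have h2 : ((F : ℝ) / (w * E)) ^ n ≤ ((F : ℝ) / (w * E)) ^ 2 ^ n :=
    pow_le_pow_right₀ hR.le (Nat.lt_two_pow_self).le
  linarith [h1 n]

end SchurAux

variable {C : Type u} [Category.{v} C] [Preadditive C] [MonoidalCategory C]
  [MonoidalPreadditive C] [SymmetricCategory C] [RightRigidCategory C]
  {Λ : Type t} [Field Λ] [CharZero Λ] [Linear Λ C] [MonoidalLinear Λ C]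
  {K : Type w} [Field K] [IsAlgClosed K] [Algebra Λ K] {R : SuperRealisation C K}

namespace SchurAux

lemma numIdem_whiskerRight (hR : IsReal Λ R) {Y : C} (W : C) {e : Y ⟶ Y} (he : NumIdem e) :
    NumIdem (e ▷ W) := by
  rw [← MonoidalCategory.tensorHom_id]
  exact numIdem_tensor hR he (numIdem_id W)

/-- Iteration. -/
lemma pow_le (hR : IsReal Λ R) {W : C} (hW : R.CPlus W) (j : ℕ) :
    ∀ {Y : C} (_ : R.CPlus Y) {e : Y ⟶ Y} (_ : NumIdem e) {r : ℕ} (_ : IsRk R e r),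
      nr Λ (e ▷ W) (𝟙 W) ^ 2 ^ j ≤ nr Λ (𝟙 W) (𝟙 W) ^ (2 ^ j - 1) *
        (bt R W ^ 2 * r ^ 2 ^ j) := by
  induction j with
  | zero =>
    intro Y hY e he r hr
    have hrk : IsRk R (e ▷ W) (r * bt R W) := by
      rw [← MonoidalCategory.tensorHom_id]
      exact isRk_tensor hr (isRk_id R W)
    have := nr_le_rk (Λ := Λ) hR (cplus_tensor hR hY hW) hW (numIdem_whiskerRight hR W he)
      (numIdem_id W) hrk (isRk_id R W)
    simp only [pow_zero, pow_one, Nat.sub_self, one_mul]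
    refine this.trans (le_of_eq ?_)
    ring
  | succ j ih =>
    intro Y hY e he r hr
    have h4 : nr Λ (e ▷ W) (𝟙 W) ^ 2 ≤
        nr Λ ((eᘁ ⊗ₘ e) ▷ W) (𝟙 W) * nr Λ (𝟙 W) (𝟙 W) := by
      rw [← nr_self hR e]
      exact nr_sq_le hR (cplus_tensor hR hY hW) hW (numIdem_whiskerRight hR W he) (numIdem_id W)
    have h5 := ih (cplus_tensor hR (cplus_dual hR hY) hY)
      (numIdem_tensor hR (numIdem_mate hR he) he) (isRk_tensor (isRk_mate hr) hr)
    have h6 : 2 ^ (j + 1) = 2 * 2 ^ j := by ring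
    rw [h6, pow_mul]
    refine (Nat.pow_le_pow_left h4 (2 ^ j)).trans ?_
    rw [mul_pow]
    refine (Nat.mul_le_mul_right _ h5).trans (le_of_eq ?_)
    have h7 : 1 ≤ 2 ^ j := Nat.one_le_two_pow
    have h8 : 2 * 2 ^ j - 1 = (2 ^ j - 1) + 2 ^ j := by omega
    rw [h8, pow_add, ← sq r, ← pow_mul]
    ring

end SchurAux

/-- C: Schur's bound. -/
theorem schur (hR : IsReal Λ R) {Y W : C} (hY : R.CPlus Y) (hW : R.CPlus W) {e : Y ⟶ Y}
    (he : NumIdem e) {r : ℕ} (hr : IsRk R e r) :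
    nr Λ (e ▷ W) (𝟙 W) ≤ r * nr Λ (𝟙 W) (𝟙 W) :=
  SchurAux.le_of_pow_le fun j => SchurAux.pow_le hR hW j hY he hr

end Pool.Agent.N64.AF
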